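import Pool.Agent.W246.LG.Defs

set_option autoImplicit false

namespace Pool.Agent.W144.LGDep

open Finset Pool.Agent.W246.LG

open Classical in
theorem sum_ext {G : Type} [AddCommGroup G] (y : G → G) (S' S : Finset G) (h : S' ⊆ S) (m : G → ℤ) :
    ∑ b ∈ S, (if b ∈ S' then m b else 0) • y b = ∑ b ∈ S', m b • y b := by
  rw [← Finset.sum_subset h]
  · apply Finset.sum_congr rfl
    intro b hb
    rw [if_pos hb]
  · intro b _ hb
    rw [if_neg hb, zero_smul]

open Classical in
theorem abs_ext {G : Type} (S' : Finset G) (m : G → ℤ) (h : ℕ)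
    (hm : ∀ b ∈ S', |m b| ≤ (h : ℤ)) (b : G) : |(if b ∈ S' then m b else 0)| ≤ (h : ℤ) := by
  by_cases hb : b ∈ S'
  · rw [if_pos hb]; exact hm b hb
  · rw [if_neg hb]; simp

theorem sub_many {G : Type} [AddCommGroup G] (T : ℕ → Set G) (Sm : Set G)
    (hT : ∀ i, ∀ g ∈ T i, ∀ s ∈ Sm, g - s ∈ T (i + 1)) (f : G → G) (U : Finset G)
    (hU : ∀ t ∈ U, f t ∈ Sm) (i : ℕ) (g : G) (hg : g ∈ T i) :
    g - ∑ t ∈ U, f t ∈ T (i + U.card) := by
  classical
  induction U using Finset.induction_on with
  | empty => simpa using hg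
  | insert a U ha ih =>
    rw [Finset.sum_insert ha, Finset.card_insert_of_notMem ha]
    have h1 := ih (fun t ht => hU t (Finset.mem_insert_of_mem ht))
    have h2 := hT _ _ h1 (f a) (hU a (Finset.mem_insert_self a U))
    have e : g - (f a + ∑ t ∈ U, f t) = g - ∑ t ∈ U, f t - f a := by abel
    rw [e]
    exact h2

open Classical in
theorem mem_dep_of {G : Type} [AddCommGroup G] (B : Finset G) (y : G → G) (o : G → ℕ) (h : ℕ)
    (T : Set G) (F S' : Finset G) (x : G) (hx : x ∈ B) (hS' : S' ⊆ insert x F) (hxS : x ∈ S')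
    (m : G → ℤ) (hm : ∀ b ∈ S', |m b| ≤ (h : ℤ)) (hs : ∑ b ∈ S', m b • y b ∈ T)
    (ho : ¬ ((o x : ℤ) ∣ m x)) : x ∈ dep B y o h T F := by
  unfold dep
  rw [Finset.mem_filter]
  refine ⟨hx, fun b => if b ∈ S' then m b else 0, fun b _ => abs_ext S' m h hm b, ?_, ?_⟩
  · rw [sum_ext y S' _ hS' m]; exact hs
  · simp only [if_pos hxS]; exact ho

theorem main : S_dep := by
  classical
  intro G _ B y o h r T Sm hmono hsub hSm
  have c1 : Ind B y o h r T ∅ := by
    refine ⟨by simp, ?_⟩
    intro S' hS' m _ _ b hb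
    have := hS' hb
    simp at this
  have c2 : ∀ S S', S ⊆ S' → Ind B y o h r T S' → Ind B y o h r T S := by
    intro S S' hSS hI
    exact ⟨hSS.trans hI.1, fun S1 hS1 => hI.2 S1 (hS1.trans hSS)⟩
  have c5 : ∀ F F' : Finset G, F ⊆ F' → dep B y o h (T r) F ⊆ dep B y o h (T r) F' := by
    intro F F' hFF x hx
    have hx' := hx
    unfold dep at hx'
    rw [Finset.mem_filter] at hx'
    obtain ⟨hxB, m, hm, hs, ho⟩ := hx'
    exact mem_dep_of B y o h (T r) F' (insert x F) x hxB (Finset.insert_subset_insert x hFF)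
      (Finset.mem_insert_self x F) m hm hs ho
  refine ⟨c1, c2, ?_, ?_, c5, ?_, ?_⟩
  · intro S hI m hm hs
    exact hI.2 S (Finset.Subset.refl S) m hm (hmono 0 _ (Nat.zero_le _) hs)
  · intro S hSB hnI
    have h1 : ¬ (∀ S' ⊆ S, ∀ m : G → ℤ, (∀ b ∈ S', |m b| ≤ (h : ℤ)) →
      ∑ b ∈ S', m b • y b ∈ T (r - S'.card) → ∀ b ∈ S', (o b : ℤ) ∣ m b) :=
      fun hc => hnI ⟨hSB, hc⟩
    push Not at h1
    obtain ⟨S', hS', m, hm, hs, b, hb, ho⟩ := h1
    refine ⟨b, hS' hb, ?_⟩
    apply mem_dep_of B y o h (T r) (S.erase b) S' b (hSB (hS' hb)) _ hb m hm _ ho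
    · rw [Finset.insert_erase (hS' hb)]; exact hS'
    · exact hmono _ _ (Nat.sub_le _ _) hs
  · intro S hI x hxB hxS hcard hnI
    have hsubB : insert x S ⊆ B := Finset.insert_subset hxB hI.1
    have h1 : ¬ (∀ S' ⊆ insert x S, ∀ m : G → ℤ, (∀ b ∈ S', |m b| ≤ (h : ℤ)) →
      ∑ b ∈ S', m b • y b ∈ T (r - S'.card) → ∀ b ∈ S', (o b : ℤ) ∣ m b) :=
      fun hc => hnI ⟨hsubB, hc⟩
    push Not at h1
    obtain ⟨S', hS', m, hm, hs, b, hb, ho⟩ := h1
    have hxS' : x ∈ S' := by
      by_contra hx
      have hsub' : S' ⊆ S := by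
        intro t ht
        rcases Finset.mem_insert.1 (hS' ht) with h2 | h2
        · exact absurd (h2 ▸ ht) hx
        · exact h2
      exact ho (hI.2 S' hsub' m hm hs b hb)
    have hS'' : S'.erase x ⊆ S := by
      intro t ht
      rw [Finset.mem_erase] at ht
      rcases Finset.mem_insert.1 (hS' ht.2) with h2 | h2
      · exact absurd h2 ht.1
      · exact h2
    have hc : (S'.erase x).card + 1 = S'.card := Finset.card_erase_add_one hxS'
    have hcS : (S'.erase x).card ≤ S.card := Finset.card_le_card hS''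
    have hox : ¬ ((o x : ℤ) ∣ m x) := by
      intro hd
      have h3 : m x • y x ∈ Sm := hSm x hxB (m x) (hm x hxS') hd
      have h4 := hsub _ _ hs _ h3
      have h5 : ∑ b ∈ S', m b • y b - m x • y x = ∑ b ∈ S'.erase x, m b • y b := by
        rw [← Finset.add_sum_erase S' (fun b => m b • y b) hxS']
        abel
      rw [h5] at h4
      have h6 : r - S'.card + 1 = r - (S'.erase x).card := by omega
      rw [h6] at h4
      have h7 := hI.2 _ hS'' m (fun b hb => hm b (Finset.mem_of_mem_erase hb)) h4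
      by_cases hbx : b = x
      · exact ho (hbx ▸ hd)
      · exact ho (h7 b (Finset.mem_erase.2 ⟨hbx, hb⟩))
    exact mem_dep_of B y o h (T r) S S' x hxB hS' hxS' m hm (hmono _ _ (Nat.sub_le _ _) hs) hox
  · intro S hI x hxB hxS hcard S0 hS0 hiff s hs0
    obtain ⟨m, hm, hsum, hos⟩ := (hiff s (hS0 hs0)).1 hs0
    -- the other coefficients are trivial
    have htriv : ∀ t ∈ S \ S0, m t • y t ∈ Sm := by
      intro t ht
      rw [Finset.mem_sdiff] at ht
      have hmt : |m t| ≤ (h : ℤ) := hm t (Finset.mem_insert_of_mem ht.1)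
      apply hSm t (hI.1 ht.1) (m t) hmt
      by_contra hnd
      exact ht.2 ((hiff t ht.1).2 ⟨m, hm, hsum, hnd⟩)
    have hxS0 : x ∉ S0 := fun hx => hxS (hS0 hx)
    have hsplit : ∑ b ∈ insert x S, m b • y b - ∑ t ∈ S \ S0, m t • y t
        = ∑ b ∈ insert x S0, m b • y b := by
      have e : insert x S = insert x S0 ∪ (S \ S0) := by
        ext t
        simp only [Finset.mem_insert, Finset.mem_union, Finset.mem_sdiff]
        constructor
        · rintro (h1 | h1)
          · exact Or.inl (Or.inl h1)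
          · by_cases h2 : t ∈ S0
            · exact Or.inl (Or.inr h2)
            · exact Or.inr ⟨h1, h2⟩
        · rintro ((h1 | h1) | h1)
          · exact Or.inl h1
          · exact Or.inr (hS0 h1)
          · exact Or.inr h1.1
      have hd : Disjoint (insert x S0) (S \ S0) := by
        rw [Finset.disjoint_left]
        intro t ht ht'
        rw [Finset.mem_sdiff] at ht'
        rcases Finset.mem_insert.1 ht with h1 | h1
        · exact hxS (h1 ▸ ht'.1)
        · exact ht'.2 h1
      rw [e, Finset.sum_union hd]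
      abel
    have hT1 := sub_many T Sm hsub (fun t => m t • y t) (S \ S0) htriv 0 _ hsum
    rw [hsplit, Nat.zero_add] at hT1
    have hcS : (S \ S0).card + S0.card = S.card := Finset.card_sdiff_add_card_eq_card hS0
    have hox : ¬ ((o x : ℤ) ∣ m x) := by
      intro hd
      have h3 : m x • y x ∈ Sm := hSm x hxB (m x) (hm x (Finset.mem_insert_self x S)) hd
      have h4 := hsub _ _ hT1 _ h3
      rw [Finset.sum_insert hxS0] at h4
      have h5 : m x • y x + ∑ b ∈ S0, m b • y b - m x • y x = ∑ b ∈ S0, m b • y b := by abel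
      rw [h5] at h4
      have h6 : (S \ S0).card + 1 ≤ r - S0.card := by omega
      exact hos (hI.2 S0 hS0 m (fun b hb => hm b (Finset.mem_insert_of_mem (hS0 hb)))
        (hmono _ _ h6 h4) s hs0)
    have hmS : ∀ b ∈ insert x S0, |m b| ≤ (h : ℤ) := fun b hb =>
      hm b (Finset.insert_subset_insert x hS0 hb)
    have hTr : ∑ b ∈ insert x S0, m b • y b ∈ T r := hmono _ _ (by omega) hT1
    refine ⟨mem_dep_of B y o h (T r) S0 (insert x S0) x hxB (Finset.Subset.refl _)
      (Finset.mem_insert_self x S0) m hmS hTr hox, ?_⟩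
    apply mem_dep_of B y o h (T r) (insert x (S0.erase s)) (insert x S0) s (hI.1 (hS0 hs0)) _
      (Finset.mem_insert_of_mem hs0) m hmS hTr hos
    intro t ht
    rw [Finset.mem_insert] at ht
    simp only [Finset.mem_insert, Finset.mem_erase]
    rcases ht with h1 | h1
    · exact Or.inr (Or.inl h1)
    · by_cases h2 : t = s
      · exact Or.inl h2
      · exact Or.inr (Or.inr ⟨h2, h1⟩)

/-- sums over small subsets -/
theorem esum_le {α : Type} [DecidableEq α] (B : Finset α) (q : α → ℝ) (W : ℝ)
    (hq : ∀ b ∈ B, 0 ≤ q b) (hW : ∑ b ∈ B, q b ≤ W) (j : ℕ) :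
    ∑ S ∈ B.powersetCard j, ∏ b ∈ S, q b ≤ W ^ j := by
  have h0 : 0 ≤ ∑ b ∈ B, q b := Finset.sum_nonneg hq
  have h1 : ∑ S ∈ B.powersetCard j, ∏ b ∈ S, q b ≤ (∑ b ∈ B, q b) ^ j := by
    clear hW
    induction j with
    | zero => simp
    | succ j ih =>
      have h2 : ∑ S ∈ B.powersetCard (j + 1), ∏ b ∈ S, q b ≤
          ∑ S ∈ B.powersetCard j, ∑ x ∈ B, (∏ b ∈ S, q b) * q x := by
        have h3 : ∑ S ∈ B.powersetCard (j + 1), ∏ b ∈ S, q b ≤
            ∑ p ∈ (B.powersetCard j ×ˢ B), (∏ b ∈ p.1, q b) * q p.2 := by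
          rcases B.eq_empty_or_nonempty with hB | ⟨x0, _⟩
          · subst hB
            rw [Finset.powersetCard_eq_empty.2 (by simp)]
            simp
          have : Nonempty α := ⟨x0⟩
          have hch : ∀ S ∈ B.powersetCard (j + 1), ∃ x ∈ S, True := by
            intro S hS
            rw [Finset.mem_powersetCard] at hS
            have : S.Nonempty := by
              rw [← Finset.card_pos]; omega
            obtain ⟨x, hx⟩ := this
            exact ⟨x, hx, trivial⟩
          choose! c hc _ using hch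
          calc ∑ S ∈ B.powersetCard (j + 1), ∏ b ∈ S, q b
              = ∑ S ∈ B.powersetCard (j + 1), (∏ b ∈ S.erase (c S), q b) * q (c S) := by
                apply Finset.sum_congr rfl
                intro S hS
                rw [Finset.prod_erase_mul S q (hc S hS)]
            _ = ∑ p ∈ (B.powersetCard (j + 1)).image (fun S => (S.erase (c S), c S)),
                  (∏ b ∈ p.1, q b) * q p.2 := by
                rw [Finset.sum_image]
                intro S hS S' hS' heq
                simp only [Prod.mk.injEq] at heq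
                rw [← Finset.insert_erase (hc S hS), ← Finset.insert_erase (hc S' hS'), heq.1,
                  heq.2]
            _ ≤ _ := by
                apply Finset.sum_le_sum_of_subset_of_nonneg
                · intro p hp
                  rw [Finset.mem_image] at hp
                  obtain ⟨S, hS, rfl⟩ := hp
                  have hS2 := hS
                  rw [Finset.mem_powersetCard] at hS2
                  rw [Finset.mem_product, Finset.mem_powersetCard]
                  refine ⟨⟨(Finset.erase_subset _ _).trans hS2.1, ?_⟩, hS2.1 (hc S hS)⟩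
                  rw [Finset.card_erase_of_mem (hc S hS), hS2.2]
                  simp
                · intro p hp _
                  rw [Finset.mem_product, Finset.mem_powersetCard] at hp
                  exact mul_nonneg (Finset.prod_nonneg (fun b hb => hq b (hp.1.1 hb)))
                    (hq _ hp.2)
        rw [Finset.sum_product] at h3
        exact h3
      calc _ ≤ _ := h2
        _ = (∑ S ∈ B.powersetCard j, ∏ b ∈ S, q b) * ∑ b ∈ B, q b := by
            rw [Finset.sum_mul]
            apply Finset.sum_congr rfl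
            intro S _
            rw [Finset.mul_sum]
        _ ≤ (∑ b ∈ B, q b) ^ j * ∑ b ∈ B, q b := mul_le_mul_of_nonneg_right ih h0
        _ = _ := by rw [pow_succ]
  exact h1.trans (pow_le_pow_left₀ h0 hW j)

open Classical in
theorem main_depsum' (α : Type) (B : Finset α) (q : α → ℝ) (qs W σ : ℝ)
    (P : Finset α → Prop) (D : Finset α → Finset α) (R : ℕ)
    (hq : ∀ b ∈ B, 0 ≤ q b ∧ q b ≤ qs) (hW : ∑ b ∈ B, q b ≤ W) (hW1 : 1 ≤ W) (hσ : 0 ≤ σ)
    (hqs : 0 ≤ qs)
    (hD : ∀ F ⊆ B, D F ⊆ B ∧ ((D F).card : ℝ) ≤ σ * F.card)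
    (hP : ∀ S ⊆ B, ¬ P S → ∃ x ∈ S, x ∈ D (S.erase x)) :
    ∑ S ∈ B.powerset.filter (fun S => S.card ≤ R ∧ ¬ P S), ∏ b ∈ S, q b ≤
      (R + 1) * W ^ R * (σ * R * qs) := by
  set 𝒮 := B.powerset.filter (fun S => S.card ≤ R ∧ ¬ P S) with h𝒮
  have hmem : ∀ S ∈ 𝒮, S ⊆ B ∧ S.card ≤ R ∧ ¬ P S := by
    intro S hS
    rw [h𝒮, Finset.mem_filter, Finset.mem_powerset] at hS
    exact hS
  have hch : ∀ S ∈ 𝒮, ∃ x, x ∈ S ∧ x ∈ D (S.erase x) := by
    intro S hS
    obtain ⟨h1, _, h3⟩ := hmem S hS
    obtain ⟨x, hx, hx'⟩ := hP S h1 h3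
    exact ⟨x, hx, hx'⟩
  have hWR : 0 ≤ (R + 1) * W ^ R * (σ * R * qs) := by
    have : (0:ℝ) ≤ W := by linarith
    positivity
  rcases 𝒮.eq_empty_or_nonempty with h0 | ⟨S1, hS1⟩
  · rw [h0, Finset.sum_empty]; exact hWR
  obtain ⟨x1, _⟩ := hch S1 hS1
  have : Nonempty α := ⟨x1⟩
  choose! c hc1 hc2 using hch
  set 𝒯 := (B.powerset.filter (fun F => F.card < R)).sigma (fun F => D F) with h𝒯
  have hRpos : 𝒮.Nonempty → 0 < R := by
    rintro ⟨S, hS⟩
    have := Finset.card_pos.2 ⟨_, hc1 S hS⟩
    have := (hmem S hS).2.1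
    omega
  have hnn : ∀ F ⊆ B, 0 ≤ ∏ b ∈ F, q b := fun F hF =>
    Finset.prod_nonneg (fun b hb => (hq b (hF hb)).1)
  calc ∑ S ∈ 𝒮, ∏ b ∈ S, q b
      = ∑ S ∈ 𝒮, (∏ b ∈ S.erase (c S), q b) * q (c S) := by
        apply Finset.sum_congr rfl
        intro S hS
        rw [Finset.prod_erase_mul S q (hc1 S hS)]
    _ = ∑ p ∈ 𝒮.image (fun S => (⟨S.erase (c S), c S⟩ : (_ : Finset α) × α)),
          (∏ b ∈ p.1, q b) * q p.2 := by
        rw [Finset.sum_image]
        intro S hS S' hS' heq
        simp only [Sigma.mk.injEq, heq_eq_eq] at heq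
        rw [← Finset.insert_erase (hc1 S hS), ← Finset.insert_erase (hc1 S' hS'), heq.1, heq.2]
    _ ≤ ∑ p ∈ 𝒯, (∏ b ∈ p.1, q b) * q p.2 := by
        apply Finset.sum_le_sum_of_subset_of_nonneg
        · intro p hp
          rw [Finset.mem_image] at hp
          obtain ⟨S, hS, rfl⟩ := hp
          obtain ⟨h1, h2, _⟩ := hmem S hS
          rw [h𝒯, Finset.mem_sigma, Finset.mem_filter, Finset.mem_powerset]
          refine ⟨⟨(Finset.erase_subset _ _).trans h1, ?_⟩, hc2 S hS⟩
          have := Finset.card_erase_add_one (hc1 S hS)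
          show (S.erase (c S)).card < R
          omega
        · intro p hp _
          rw [h𝒯, Finset.mem_sigma, Finset.mem_filter, Finset.mem_powerset] at hp
          exact mul_nonneg (hnn _ hp.1.1) (hq _ ((hD _ hp.1.1).1 hp.2)).1
    _ = ∑ F ∈ B.powerset.filter (fun F => F.card < R), ∑ x ∈ D F, (∏ b ∈ F, q b) * q x := by
        rw [h𝒯, Finset.sum_sigma]
    _ ≤ ∑ F ∈ B.powerset.filter (fun F => F.card < R), (∏ b ∈ F, q b) * (σ * R * qs) := by
        apply Finset.sum_le_sum
        intro F hF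
        rw [Finset.mem_filter, Finset.mem_powerset] at hF
        rw [← Finset.mul_sum]
        apply mul_le_mul_of_nonneg_left _ (hnn F hF.1)
        calc ∑ x ∈ D F, q x ≤ ∑ x ∈ D F, qs :=
              Finset.sum_le_sum (fun x hx => (hq x ((hD F hF.1).1 hx)).2)
          _ = (D F).card * qs := by rw [Finset.sum_const, nsmul_eq_mul]
          _ ≤ (σ * F.card) * qs := mul_le_mul_of_nonneg_right (hD F hF.1).2 hqs
          _ ≤ (σ * R) * qs := by
              apply mul_le_mul_of_nonneg_right _ hqs
              apply mul_le_mul_of_nonneg_left _ hσ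
              exact_mod_cast hF.2.le
    _ = (∑ F ∈ B.powerset.filter (fun F => F.card < R), ∏ b ∈ F, q b) * (σ * R * qs) := by
        rw [Finset.sum_mul]
    _ ≤ ((R + 1) * W ^ R) * (σ * R * qs) := by
        apply mul_le_mul_of_nonneg_right _ (by positivity)
        have e : B.powerset.filter (fun F => F.card < R) =
            (Finset.range R).biUnion (fun j => B.powersetCard j) := by
          ext F
          simp only [Finset.mem_filter, Finset.mem_powerset, Finset.mem_biUnion,
            Finset.mem_range, Finset.mem_powersetCard]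
          constructor
          · rintro ⟨h1, h2⟩; exact ⟨F.card, h2, h1, rfl⟩
          · rintro ⟨j, h1, h2, h3⟩; exact ⟨h2, h3 ▸ h1⟩
        rw [e, Finset.sum_biUnion]
        · calc ∑ j ∈ Finset.range R, ∑ F ∈ B.powersetCard j, ∏ b ∈ F, q b
              ≤ ∑ j ∈ Finset.range R, W ^ R := by
                apply Finset.sum_le_sum
                intro j hj
                rw [Finset.mem_range] at hj
                exact (esum_le B q W (fun b hb => (hq b hb).1) hW j).trans
                  (pow_le_pow_right₀ hW1 hj.le)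
            _ = R * W ^ R := by rw [Finset.sum_const, Finset.card_range, nsmul_eq_mul]
            _ ≤ (R + 1) * W ^ R := by
                apply mul_le_mul_of_nonneg_right (by linarith) (by positivity)
        · intro i _ j _ hij
          rw [Function.onFun, Finset.disjoint_left]
          intro F h1 h2
          rw [Finset.mem_powersetCard] at h1 h2
          exact hij (h1.2.symm.trans h2.2)

theorem main_depsum : S_depsum := by
  intro α B q qs W σ P D R hq hW hW1 hσ hqs hD hP
  exact main_depsum' α B q qs W σ P D R hq hW hW1 hσ hqs hD hP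

end Pool.Agent.W144.LGDep
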