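import Pool.Agent.W144.HA

set_option autoImplicit false
open Matrix

namespace Pool.Agent.W144.Hong

open Pool.Agent.Results.MP_8d8c45_co.DenseFull

section
variable {n : ℕ} (G : SimpleGraph (Fin n)) [DecidableRel G.Adj]

/-- the sum of `x` over the vertices that are not adjacent to `i` -/
noncomputable def cs (x : Fin n → ℝ) (i : Fin n) : ℝ :=
  ∑ j, if j ≠ i ∧ ¬ G.Adj i j then x j else 0

theorem split_sum (x : Fin n → ℝ) (i : Fin n) :
    ∑ j, x j = (∑ j, if G.Adj i j then x j else 0) + x i + cs G x i := by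
  unfold cs
  have h : ∀ j, x j = (if G.Adj i j then x j else 0) + (if j = i then x j else 0) +
      (if j ≠ i ∧ ¬ G.Adj i j then x j else 0) := by
    intro j
    by_cases h1 : j = i
    · subst h1
      simp
    · by_cases h2 : G.Adj i j
      · simp [h1, h2]
      · simp [h1, h2]
  calc ∑ j, x j = ∑ j, ((if G.Adj i j then x j else 0) + (if j = i then x j else 0) +
      (if j ≠ i ∧ ¬ G.Adj i j then x j else 0)) := Finset.sum_congr rfl fun j _ => h j
    _ = _ := by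
      rw [Finset.sum_add_distrib, Finset.sum_add_distrib, Finset.sum_ite_eq' Finset.univ i x]
      simp

theorem deg_sum (i : Fin n) : (∑ j, if G.Adj i j then (1 : ℝ) else 0) = G.degree i := by
  rw [Finset.sum_boole, ← SimpleGraph.card_neighborFinset_eq_degree,
    SimpleGraph.neighborFinset_eq_filter]

theorem cs_one (i : Fin n) :
    (∑ j, if j ≠ i ∧ ¬ G.Adj i j then (1 : ℝ) else 0) = n - 1 - G.degree i := by
  have h := split_sum G (fun _ => (1 : ℝ)) i
  rw [deg_sum] at h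
  unfold cs at h
  simp only [Finset.sum_const, Finset.card_univ, Fintype.card_fin, nsmul_eq_mul, mul_one] at h
  linarith

theorem mulVec_eq (x : Fin n → ℝ) (i : Fin n) :
    (G.adjMatrix ℝ *ᵥ x) i = ∑ j, if G.Adj i j then x j else 0 := by
  have h : (G.adjMatrix ℝ *ᵥ x) i = ∑ j, G.adjMatrix ℝ i j * x j := rfl
  rw [h]
  refine Finset.sum_congr rfl fun j _ => ?_
  rw [SimpleGraph.adjMatrix_apply]
  split_ifs <;> simp

theorem cs_le (x : Fin n → ℝ) (X : ℝ) (hX : ∀ j, x j ≤ X) (i : Fin n) :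
    cs G x i ≤ ((n : ℝ) - 1 - G.degree i) * X := by
  rw [← cs_one, Finset.sum_mul]
  unfold cs
  refine Finset.sum_le_sum fun j _ => ?_
  split_ifs
  · rw [one_mul]; exact hX j
  · rw [zero_mul]

theorem le_cs (x : Fin n → ℝ) (X : ℝ) (hX : ∀ j, X ≤ x j) (i : Fin n) :
    ((n : ℝ) - 1 - G.degree i) * X ≤ cs G x i := by
  rw [← cs_one, Finset.sum_mul]
  unfold cs
  refine Finset.sum_le_sum fun j _ => ?_
  split_ifs
  · rw [one_mul]; exact hX j
  · rw [zero_mul]

theorem perron_data (hn : 0 < n) (D S ρ : ℝ)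
    (hD : ∀ i, (n : ℝ) - 1 - G.degree i ≤ D) (hS : ∀ i j, (G.degree i : ℝ) - G.degree j ≤ S)
    (hS0 : 0 ≤ S) (hρ : ρ = (spectralRadius ℝ (G.adjMatrix ℝ)).toReal) (hρ1 : D + S < ρ + 1) :
    ∃ (x : Fin n → ℝ) (X r : ℝ), 0 < X ∧ 0 ≤ r ∧ (ρ + 1 - D) * r ≤ S ∧ r < 1 ∧
      (∀ i, x i ≤ X) ∧ (∀ i, X * (1 - r) ≤ x i) ∧ G.adjMatrix ℝ *ᵥ x = ρ • x ∧
      ∀ i j, X * (((n : ℝ) - 1 - G.degree j) * (1 - r) - ((n : ℝ) - 1 - G.degree i)) ≤
        (ρ + 1) * (x i - x j) := by
  have hne : Nonempty (Fin n) := ⟨⟨0, hn⟩⟩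
  obtain ⟨x, hx0, hx1, hx⟩ := exists_perron n hn (G.adjMatrix ℝ) (G.isSymm_adjMatrix) (fun i j => by
    rw [SimpleGraph.adjMatrix_apply]
    split_ifs <;> norm_num)
  rw [← hρ] at hx
  obtain ⟨i0, -, hi0⟩ := Finset.exists_max_image Finset.univ x Finset.univ_nonempty
  obtain ⟨j0, -, hj0⟩ := Finset.exists_min_image Finset.univ x Finset.univ_nonempty
  have hmax : ∀ i, x i ≤ x i0 := fun i => hi0 i (Finset.mem_univ i)
  have hmin : ∀ i, x j0 ≤ x i := fun i => hj0 i (Finset.mem_univ i)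
  have hX : 0 < x i0 := by
    by_contra h
    apply hx0
    funext i
    have h1 := hmax i
    have h2 := hx1 i
    simp only [Pi.zero_apply]
    linarith
  have heq : ∀ i, (ρ + 1) * x i = (∑ j, x j) - cs G x i := by
    intro i
    have h1 := congrFun hx i
    rw [mulVec_eq] at h1
    have h2 := split_sum G x i
    rw [h1] at h2
    simp only [Pi.smul_apply, smul_eq_mul] at h2
    linarith
  have hdiff : ∀ i j, ((n : ℝ) - 1 - G.degree j) * x j0 - ((n : ℝ) - 1 - G.degree i) * x i0 ≤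
      (ρ + 1) * (x i - x j) := by
    intro i j
    have h1 := heq i
    have h2 := heq j
    have h3 := cs_le G x (x i0) hmax i
    have h4 := le_cs G x (x j0) hmin j
    linarith
  have hmain : (ρ + 1 - D) * (x i0 - x j0) ≤ S * x i0 := by
    have h1 := heq i0
    have h2 := heq j0
    have h3 := cs_le G x (x i0) hmax j0
    have h4 := le_cs G x (x j0) hmin i0
    have h5 := hD i0
    have h6 := hS i0 j0
    have h7 : 0 ≤ x i0 - x j0 := by linarith [hmin i0]
    have h8 : ((n : ℝ) - 1 - G.degree i0) * (x i0 - x j0) ≤ D * (x i0 - x j0) :=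
      mul_le_mul_of_nonneg_right h5 h7
    have h9 : ((G.degree i0 : ℝ) - G.degree j0) * x i0 ≤ S * x i0 :=
      mul_le_mul_of_nonneg_right h6 hX.le
    linarith
  refine ⟨x, x i0, (x i0 - x j0) / x i0, hX, div_nonneg (by linarith [hmin i0]) hX.le, ?_, ?_, hmax,
    ?_, hx, ?_⟩
  · rw [mul_div_assoc', div_le_iff₀ hX]
    exact hmain
  · rw [div_lt_one hX]
    by_contra h
    push Not at h
    have h1 : x j0 ≤ 0 := by linarith
    have h2 : (ρ + 1 - D) * x i0 ≤ (ρ + 1 - D) * (x i0 - x j0) :=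
      mul_le_mul_of_nonneg_left (by linarith) (by linarith)
    have h3 : S * x i0 < (ρ + 1 - D) * x i0 := mul_lt_mul_of_pos_right (by linarith) hX
    linarith
  · intro i
    have h1 : x i0 * (1 - (x i0 - x j0) / x i0) = x j0 := by field_simp; ring
    rw [h1]
    exact hmin i
  · intro i j
    have h1 : x i0 * (1 - (x i0 - x j0) / x i0) = x j0 := by field_simp; ring
    have h2 : x i0 * (((n : ℝ) - 1 - G.degree j) * (1 - (x i0 - x j0) / x i0) -
        ((n : ℝ) - 1 - G.degree i)) = ((n : ℝ) - 1 - G.degree j) * x j0 -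
        ((n : ℝ) - 1 - G.degree i) * x i0 := by
      calc _ = ((n : ℝ) - 1 - G.degree j) * (x i0 * (1 - (x i0 - x j0) / x i0)) -
        ((n : ℝ) - 1 - G.degree i) * x i0 := by ring
        _ = _ := by rw [h1]
    rw [h2]
    exact hdiff i j

end

theorem sum_single {n : ℕ} (p q : Fin n → ℝ) (a x : Fin n) :
    ∑ i, p i * ∑ j, (if i = a ∧ j = x then (1 : ℝ) else 0) * q j = p a * q x := by
  rw [Finset.sum_eq_single a, Finset.sum_eq_single x]
  · simp
  · intro j _ hj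
    simp [hj]
  · simp
  · intro i _ hi
    have : ∀ j, (if i = a ∧ j = x then (1 : ℝ) else 0) * q j = 0 := by
      intro j
      simp [hi]
    simp only [this, Finset.sum_const_zero, mul_zero]
  · simp

/-- Replace the edge `a x` by the edge `b x`. -/
theorem switch {n : ℕ} (G : SimpleGraph (Fin n)) [DecidableRel G.Adj] (a b x : Fin n)
    (hax : G.Adj a x) (hbx : ¬ G.Adj b x) (hxb : x ≠ b) (hab : a ≠ b) :
    ∃ (G' : SimpleGraph (Fin n)) (_ : DecidableRel G'.Adj), ∀ i j, G'.adjMatrix ℝ i j =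
      G.adjMatrix ℝ i j - (if i = a ∧ j = x then 1 else 0) - (if i = x ∧ j = a then 1 else 0) +
        (if i = b ∧ j = x then 1 else 0) + (if i = x ∧ j = b then 1 else 0) := by
  classical
  have hxa : x ≠ a := fun h => G.loopless.irrefl a (h ▸ hax)
  refine ⟨{ Adj := fun i j => (G.Adj i j ∧ ¬ (i = a ∧ j = x) ∧ ¬ (i = x ∧ j = a)) ∨
      (i = b ∧ j = x) ∨ (i = x ∧ j = b), symm := ⟨?_⟩, loopless := ⟨?_⟩ },
      fun _ _ => Classical.propDecidable _, ?_⟩
  · rintro i j (⟨h1, h2, h3⟩ | ⟨h1, h2⟩ | ⟨h1, h2⟩)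
    · exact Or.inl ⟨h1.symm, fun h => h3 ⟨h.2, h.1⟩, fun h => h2 ⟨h.2, h.1⟩⟩
    · exact Or.inr (Or.inr ⟨h2, h1⟩)
    · exact Or.inr (Or.inl ⟨h2, h1⟩)
  · rintro i (⟨h1, _⟩ | ⟨h1, h2⟩ | ⟨h1, h2⟩)
    · exact G.loopless.irrefl i h1
    · exact hxb (h2.symm.trans h1)
    · exact hxb (h1.symm.trans h2)
  · intro i j
    rw [SimpleGraph.adjMatrix_apply, SimpleGraph.adjMatrix_apply]
    by_cases h1 : i = a ∧ j = x
    · obtain ⟨rfl, rfl⟩ := h1
      simp [hax, hab, hxa, hxa.symm, hxb]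
    by_cases h2 : i = x ∧ j = a
    · obtain ⟨rfl, rfl⟩ := h2
      simp [hax.symm, hab, hxa, hxa.symm, hxb]
    by_cases h3 : i = b ∧ j = x
    · obtain ⟨rfl, rfl⟩ := h3
      simp [hbx, hab.symm, hxb, hxb.symm, hxa]
    by_cases h4 : i = x ∧ j = b
    · obtain ⟨rfl, rfl⟩ := h4
      have : ¬ G.Adj i j := fun h => hbx h.symm
      simp [this, hab.symm, hxb, hxa]
    simp [h1, h2, h3, h4]

end Pool.Agent.W144.Hong
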