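import Pool.Agent.W144.HB

set_option autoImplicit false
open Matrix

namespace Pool.Agent.W144.Hong

open Pool.Agent.Results.MP_8d8c45_co.DenseFull

theorem arith (D S r r' : ℝ) (hS : 2 ≤ S) (hr' : r' < 1) (hr : 0 ≤ r) (hr0' : 0 ≤ r')
    (h1 : 2 * (D * r) < S * (1 - r)) (h2 : 2 * (D * r') < S * (1 - r')) :
    0 < (1 - r') * (S - D * r) + (S - 2 - (D - 1) * r') := by
  have h3 : S * (1 + r) / 2 < S - D * r := by linarith
  have h4 : (1 - r') * (S * (1 + r) / 2) < (1 - r') * (S - D * r) :=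
    mul_lt_mul_of_pos_left h3 (by linarith)
  have h5 : 0 ≤ (1 - r') * (S * r) := mul_nonneg (by linarith) (mul_nonneg (by linarith) hr)
  have h6 : (1 - r') * (S * (1 + r) / 2) = (1 - r') * S / 2 + (1 - r') * (S * r) / 2 := by ring
  linarith

theorem small (D S ρ r : ℝ) (hS : 2 ≤ S) (hr : 0 ≤ r) (h : 3 * D + S < ρ + 1)
    (h1 : (ρ + 1 - D) * r ≤ S) : 2 * (D * r) < S * (1 - r) := by
  rcases hr.eq_or_lt with h0 | h0
  · rw [← h0]; linarith
  · have h2 : (2 * D + S) * r < (ρ + 1 - D) * r := mul_lt_mul_of_pos_right (by linarith) h0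
    linarith

theorem final (D S ρ ρ' r r' X Y pa pb px qa qb qx : ℝ) (hS : 2 ≤ S) (hD : 0 ≤ D)
    (h : 3 * D + S < ρ + 1) (hρ : ρ ≤ ρ') (hr : 0 ≤ r) (hr0' : 0 ≤ r') (hr' : r' < 1) (hr1 : r < 1)
    (hX : 0 < X) (hY : 0 < Y)
    (h1 : (ρ + 1 - D) * r ≤ S) (h2 : (ρ' + 1 - D) * r' ≤ S)
    (hp : X * (S - D * r) ≤ (ρ + 1) * (pa - pb))
    (hq : Y * (S - 2 - (D - 1) * r') ≤ (ρ' + 1) * (qa - qb))
    (hqx : Y * (1 - r') ≤ qx) (hpx : px ≤ X) (hpx0 : X * (1 - r) ≤ px)
    (hle : qx * (pa - pb) + px * (qa - qb) ≤ 0) : False := by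
  have hs1 := small D S ρ r hS hr h h1
  have hs2 := small D S ρ' r' hS hr0' (by linarith) h2
  have ha := arith D S r r' hS hr' hr hr0' hs1 hs2
  have hθ : 0 < ρ + 1 := by linarith
  have hθ' : 0 < ρ' + 1 := by linarith
  have hSD : 0 < S - D * r := by
    have : 0 ≤ S * r := mul_nonneg (by linarith) hr
    linarith
  have hpab : 0 < pa - pb := by
    have h3 : 0 < (ρ + 1) * (pa - pb) := lt_of_lt_of_le (mul_pos hX hSD) hp
    exact (mul_pos_iff_of_pos_left hθ).mp h3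
  have hqx0 : 0 < qx := lt_of_lt_of_le (mul_pos hY (by linarith)) hqx
  have hpx1 : 0 < px := lt_of_lt_of_le (mul_pos hX (by linarith)) hpx0
  rcases le_or_gt 0 (qa - qb) with h3 | h3
  · have h4 := mul_pos hqx0 hpab
    have h5 := mul_nonneg hpx1.le h3
    linarith
  · -- multiply by ρ' + 1
    have h4 : X * (S - D * r) ≤ (ρ' + 1) * (pa - pb) :=
      hp.trans (mul_le_mul_of_nonneg_right (by linarith) hpab.le)
    have h5 : Y * (1 - r') * (X * (S - D * r)) ≤ qx * ((ρ' + 1) * (pa - pb)) :=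
      mul_le_mul hqx h4 (mul_pos hX hSD).le hqx0.le
    have h6 : Y * (S - 2 - (D - 1) * r') ≤ 0 :=
      hq.trans (mul_nonpos_of_nonneg_of_nonpos hθ'.le h3.le)
    have h7 : X * (Y * (S - 2 - (D - 1) * r')) ≤ px * (Y * (S - 2 - (D - 1) * r')) :=
      mul_le_mul_of_nonpos_right hpx h6
    have h8 : px * (Y * (S - 2 - (D - 1) * r')) ≤ px * ((ρ' + 1) * (qa - qb)) :=
      mul_le_mul_of_nonneg_left hq hpx1.le
    have h9 : (ρ' + 1) * (qx * (pa - pb) + px * (qa - qb)) ≤ 0 :=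
      mul_nonpos_of_nonneg_of_nonpos hθ'.le hle
    have h10 : 0 < X * Y * ((1 - r') * (S - D * r) + (S - 2 - (D - 1) * r')) :=
      mul_pos (mul_pos hX hY) ha
    have h11 : X * Y * ((1 - r') * (S - D * r) + (S - 2 - (D - 1) * r')) =
      Y * (1 - r') * (X * (S - D * r)) + X * (Y * (S - 2 - (D - 1) * r')) := by ring
    have h12 : (ρ' + 1) * (qx * (pa - pb) + px * (qa - qb)) =
      qx * ((ρ' + 1) * (pa - pb)) + px * ((ρ' + 1) * (qa - qb)) := by ring
    linarith

theorem core (n m : ℕ) (G : SimpleGraph (Fin n)) [DecidableRel G.Adj]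
    (hGm : G.edgeFinset.card = m)
    (hmin : ∀ (H : SimpleGraph (Fin n)) [DecidableRel H.Adj], H.Connected → H.edgeFinset.card = m →
      (spectralRadius ℝ (G.adjMatrix ℝ)).toReal ≤ (spectralRadius ℝ (H.adjMatrix ℝ)).toReal)
    (a b : Fin n) (hb : ∀ v, G.degree b ≤ G.degree v) (ha : ∀ v, G.degree v ≤ G.degree a)
    (hab : G.degree b + 2 ≤ G.degree a)
    (hDS : 3 * ((n : ℝ) - 1 - G.degree b) + ((G.degree a : ℝ) - G.degree b) <
      2 * (m : ℝ) / n + 1) : False := by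
  have hn : 0 < n := Fin.pos a
  have hnR : (0 : ℝ) < n := by exact_mod_cast hn
  have hne : a ≠ b := by
    rintro rfl
    omega
  obtain ⟨x, hx1, hx2⟩ : ∃ x ∈ (G.neighborFinset a).erase b, x ∉ G.neighborFinset b := by
    by_contra hcon
    push Not at hcon
    have h1 : ((G.neighborFinset a).erase b).card ≤ (G.neighborFinset b).card :=
      Finset.card_le_card (fun x hx => hcon x hx)
    have h2 : (G.neighborFinset a).card - 1 ≤ ((G.neighborFinset a).erase b).card :=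
      Finset.pred_card_le_card_erase
    rw [G.card_neighborFinset_eq_degree] at h1 h2
    omega
  rw [Finset.mem_erase, G.mem_neighborFinset] at hx1
  rw [G.mem_neighborFinset] at hx2
  obtain ⟨hxb, hax⟩ := hx1
  have hxa : x ≠ a := fun h => G.loopless.irrefl a (h ▸ hax)
  obtain ⟨G', i', hA'⟩ := switch G a b x hax hx2 hxb hne
  -- degrees
  have hdegA : ∀ (H : SimpleGraph (Fin n)) [DecidableRel H.Adj] (i : Fin n),
      (H.degree i : ℝ) = ∑ j, H.adjMatrix ℝ i j := by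
    intro H _ i
    rw [← deg_sum]
    refine Finset.sum_congr rfl fun j _ => ?_
    rw [SimpleGraph.adjMatrix_apply]
  have hdeg : ∀ i, (G'.degree i : ℝ) = G.degree i - (if i = a then 1 else 0) +
      (if i = b then 1 else 0) := by
    intro i
    rw [hdegA G' i, hdegA G i]
    simp only [hA', Finset.sum_add_distrib, Finset.sum_sub_distrib]
    have e : ∀ (u v : Fin n), (∑ j, (if i = u ∧ j = v then (1 : ℝ) else 0)) =
        if i = u then 1 else 0 := by
      intro u v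
      by_cases h : i = u <;> simp [h]
    rw [e, e, e, e]
    ring
  have hda : (G'.degree a : ℝ) = G.degree a - 1 := by rw [hdeg]; simp [hne]
  have hdb : (G'.degree b : ℝ) = G.degree b + 1 := by rw [hdeg]; simp [hne.symm]
  have habR : (G.degree b : ℝ) + 2 ≤ G.degree a := by exact_mod_cast hab
  have hbR : ∀ v, (G.degree b : ℝ) ≤ G.degree v := fun v => by exact_mod_cast hb v
  have haR : ∀ v, (G.degree v : ℝ) ≤ G.degree a := fun v => by exact_mod_cast ha v
  have hb' : ∀ v, (G.degree b : ℝ) ≤ G'.degree v := by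
    intro v
    rw [hdeg]
    by_cases h1 : v = a
    · subst h1; simp [hne]; linarith
    · by_cases h2 : v = b
      · subst h2; simp [h1]
      · simp [h1, h2]; exact_mod_cast hb v
  have ha' : ∀ v, (G'.degree v : ℝ) ≤ G.degree a := by
    intro v
    rw [hdeg]
    by_cases h1 : v = a
    · subst h1; simp [hne]
    · by_cases h2 : v = b
      · subst h2; simp [h1]; linarith
      · simp [h1, h2]; exact_mod_cast ha v
  -- number of edges
  have hsum : ∑ v, (G.degree v : ℝ) = 2 * m := by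
    rw [← hGm]
    exact_mod_cast G.sum_degrees_eq_twice_card_edges
  have hsum' : ∑ v, (G'.degree v : ℝ) = 2 * m := by
    simp only [hdeg, Finset.sum_add_distrib, Finset.sum_sub_distrib]
    rw [hsum]
    simp
  have hm' : G'.edgeFinset.card = m := by
    have h1 := G'.sum_degrees_eq_twice_card_edges
    have h2 : ((∑ v, G'.degree v : ℕ) : ℝ) = 2 * m := by
      rw [← hsum']; push_cast; rfl
    rw [h1] at h2
    push_cast at h2
    have h3 : (G'.edgeFinset.card : ℝ) = m := by linarith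
    exact_mod_cast h3
  -- average degree
  have hda1 : 2 * (m : ℝ) / n ≤ G.degree a := by
    rw [div_le_iff₀ hnR, ← hsum]
    calc ∑ v, (G.degree v : ℝ) ≤ ∑ _v : Fin n, (G.degree a : ℝ) := Finset.sum_le_sum fun v _ => haR v
      _ = _ := by simp; ring
  have hc' : G'.Connected := by
    refine HG.connected_of_degree n hn G' fun v => ?_
    have h1 := hb' v
    have hn1 : (2 : ℝ) ≤ n := by
      have h3 := G.degree_lt_card_verts a
      rw [Fintype.card_fin] at h3
      have h4 : 2 ≤ n := by omega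
      exact_mod_cast h4
    have h2 : (n : ℝ) ≤ 2 * G'.degree v + 1 := by linarith
    exact_mod_cast h2
  obtain ⟨ρ, hρ⟩ : ∃ ρ, ρ = (spectralRadius ℝ (G.adjMatrix ℝ)).toReal := ⟨_, rfl⟩
  obtain ⟨ρ', hρ'⟩ : ∃ ρ, ρ = (spectralRadius ℝ (G'.adjMatrix ℝ)).toReal := ⟨_, rfl⟩
  have hρρ : ρ ≤ ρ' := by
    rw [hρ, hρ']
    exact hmin G' hc' hm'
  have hρd : 2 * (m : ℝ) / n ≤ ρ := by
    have h1 := HG.rayleigh_le n (G.adjMatrix ℝ) G.isSymm_adjMatrix (fun _ => 1)
    rw [← hρ] at h1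
    have h2 : (fun _ : Fin n => (1 : ℝ)) ⬝ᵥ (G.adjMatrix ℝ *ᵥ (fun _ : Fin n => (1 : ℝ))) = 2 * m := by
      rw [← hsum]
      have : (fun _ : Fin n => (1 : ℝ)) ⬝ᵥ (G.adjMatrix ℝ *ᵥ (fun _ : Fin n => (1 : ℝ))) =
        ∑ i, 1 * (G.adjMatrix ℝ *ᵥ (fun _ : Fin n => (1 : ℝ))) i := rfl
      rw [this]
      refine Finset.sum_congr rfl fun i _ => ?_
      rw [one_mul, mulVec_eq, deg_sum]
    have h3 : (fun _ : Fin n => (1 : ℝ)) ⬝ᵥ (fun _ : Fin n => (1 : ℝ)) = n := by
      have : (fun _ : Fin n => (1 : ℝ)) ⬝ᵥ (fun _ : Fin n => (1 : ℝ)) = ∑ _i : Fin n, (1 : ℝ) * 1 := rfl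
      rw [this]
      simp
    rw [h2, h3] at h1
    rw [div_le_iff₀ hnR]
    exact h1
  obtain ⟨D, hD⟩ : ∃ D : ℝ, D = (n : ℝ) - 1 - G.degree b := ⟨_, rfl⟩
  obtain ⟨S, hS⟩ : ∃ S : ℝ, S = (G.degree a : ℝ) - G.degree b := ⟨_, rfl⟩
  have hD0 : 0 ≤ D := by
    have h1 := G.degree_lt_card_verts b
    rw [Fintype.card_fin] at h1
    have h2 : (G.degree b : ℝ) + 1 ≤ n := by exact_mod_cast h1
    linarith
  have hS2 : 2 ≤ S := by linarith
  have hmain : 3 * D + S < ρ + 1 := by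
    rw [hD, hS]; linarith
  obtain ⟨p, X, r, hX, hr, hrS, hr1, hpX, hpX', hAp, hpd⟩ := perron_data G hn D S ρ
    (fun i => by have := hbR i; linarith) (fun i j => by have := haR i; have := hbR j; linarith)
    (by linarith) hρ (by linarith)
  obtain ⟨q, Y, r', hY, hr', hrS', hr1', hqY, hqY', hAq, hqd⟩ := perron_data G' hn D S ρ'
    (fun i => by have := hb' i; linarith) (fun i j => by have := ha' i; have := hb' j; linarith)
    (by linarith) hρ' (by linarith)
  -- the identity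
  have hpq : 0 ≤ ∑ i, p i * q i := by
    refine Finset.sum_nonneg fun i _ => mul_nonneg ?_ ?_
    · exact (mul_nonneg hX.le (by linarith)).trans (hpX' i)
    · exact (mul_nonneg hY.le (by linarith)).trans (hqY' i)
  have e1 : ∑ i, p i * ∑ j, G.adjMatrix ℝ i j * q j = ρ * ∑ i, p i * q i := by
    have h1 : p ⬝ᵥ (G.adjMatrix ℝ *ᵥ q) = (G.adjMatrix ℝ *ᵥ p) ⬝ᵥ q := by
      rw [Matrix.dotProduct_mulVec, ← Matrix.mulVec_transpose, G.isSymm_adjMatrix.eq]
    have h2 : p ⬝ᵥ (G.adjMatrix ℝ *ᵥ q) = ∑ i, p i * ∑ j, G.adjMatrix ℝ i j * q j := rfl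
    have h3 : (ρ • p) ⬝ᵥ q = ∑ i, (ρ * p i) * q i := rfl
    rw [← h2, h1, hAp, h3, Finset.mul_sum]
    refine Finset.sum_congr rfl fun i _ => ?_
    ring
  have e2 : ∑ i, p i * ∑ j, G'.adjMatrix ℝ i j * q j = ρ' * ∑ i, p i * q i := by
    have h1 : ∀ i, ∑ j, G'.adjMatrix ℝ i j * q j = ρ' * q i := fun i => congrFun hAq i
    simp only [h1, Finset.mul_sum]
    refine Finset.sum_congr rfl fun i _ => ?_
    ring
  have e3 : ∑ i, p i * ∑ j, G'.adjMatrix ℝ i j * q j =
      (∑ i, p i * ∑ j, G.adjMatrix ℝ i j * q j) - p a * q x - p x * q a + p b * q x + p x * q b := by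
    rw [← sum_single p q a x, ← sum_single p q x a, ← sum_single p q b x, ← sum_single p q x b]
    rw [← Finset.sum_sub_distrib, ← Finset.sum_sub_distrib, ← Finset.sum_add_distrib,
      ← Finset.sum_add_distrib]
    refine Finset.sum_congr rfl fun i _ => ?_
    rw [← mul_sub, ← mul_sub, ← mul_add, ← mul_add]
    congr 1
    rw [← Finset.sum_sub_distrib, ← Finset.sum_sub_distrib, ← Finset.sum_add_distrib,
      ← Finset.sum_add_distrib]
    refine Finset.sum_congr rfl fun j _ => ?_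
    rw [hA']
    ring
  have hle : q x * (p a - p b) + p x * (q a - q b) ≤ 0 := by
    have h1 : ρ * ∑ i, p i * q i ≤ ρ' * ∑ i, p i * q i := mul_le_mul_of_nonneg_right hρρ hpq
    rw [e1, e2] at e3
    linarith
  have hp := hpd a b
  have hq := hqd a b
  rw [hda, hdb] at hq
  refine final D S ρ ρ' r r' X Y (p a) (p b) (p x) (q a) (q b) (q x) hS2 hD0 hmain hρρ hr hr'
    hr1' hr1 hX hY hrS hrS' ?_ ?_ (hqY' x) (hpX x) (hpX' x) hle
  · refine le_trans (le_of_eq ?_) hp
    rw [hD, hS]; ring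
  · refine le_trans (le_of_eq ?_) hq
    rw [hD, hS]; ring

end Pool.Agent.W144.Hong
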