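import Pool.Agent.W144.HC

set_option autoImplicit false
open Matrix

namespace Pool.Agent.W144.Hong

open Pool.Agent.Results.MP_8d8c45_co.DenseFull

/-- For average degree at least `3n/4`, a minimiser has small degree variance. -/
theorem variance (n m k t : ℕ) (htn : t < n) (h2m : 2 * m = n * k + t)
    (h34 : 3 * (n : ℝ) ≤ 4 * (2 * (m : ℝ) / n)) (hk : k + 2 ≤ n)
    (hk2 : n ≤ 2 * k + 1) (G : SimpleGraph (Fin n)) [DecidableRel G.Adj]
    (hGm : G.edgeFinset.card = m)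
    (hmin : ∀ (H : SimpleGraph (Fin n)) [DecidableRel H.Adj], H.Connected → H.edgeFinset.card = m →
      (spectralRadius ℝ (G.adjMatrix ℝ)).toReal ≤ (spectralRadius ℝ (H.adjMatrix ℝ)).toReal) :
    (∑ v, ((G.degree v : ℝ) - 2 * (m : ℝ) / n) ^ 2) ≤ (n : ℝ) := by
  have hn : 0 < n := by omega
  obtain ⟨r, hr⟩ : ∃ r, n = k + 2 + r := ⟨n - (k + 2), by omega⟩
  have hk1 : k + 1 < n := by omega
  obtain ⟨G0, i0, hdeg0, he0⟩ := HG.exists_almost_regular n k t hk1 htn
    (by rw [← h2m]; exact even_two_mul m)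
  have hm0 : G0.edgeFinset.card = m := by omega
  have hc0 : G0.Connected := HG.connected_of_degree n hn G0 (fun v => by
    rcases hdeg0 v with h | h <;> omega)
  have hsum0 : ∑ v, G0.degree v = 2 * m := by rw [G0.sum_degrees_eq_twice_card_edges, hm0]
  have hnR : (0 : ℝ) < n := by exact_mod_cast hn
  have htR : (0 : ℝ) ≤ t := Nat.cast_nonneg t
  have htnR : (t : ℝ) < n := by exact_mod_cast htn
  have hrR : (n : ℝ) = k + 2 + r := by exact_mod_cast hr
  have hkR : (0 : ℝ) ≤ k := Nat.cast_nonneg k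
  have hrR0 : (0 : ℝ) ≤ r := Nat.cast_nonneg r
  have h2mR : (2 : ℝ) * m = (n : ℝ) * k + t := by exact_mod_cast h2m
  have hd : (n : ℝ) * (2 * (m : ℝ) / n) = 2 * m := by field_simp
  generalize hdb : 2 * (m : ℝ) / n = dbar at *
  have hdk : (k : ℝ) ≤ dbar := by
    rw [← hdb, le_div_iff₀ hnR, h2mR]; linarith
  have hdk1 : dbar ≤ (k : ℝ) + 1 := by
    rw [← hdb, div_le_iff₀ hnR, h2mR]; linarith
  have hn2 : (2 : ℝ) ≤ n := by
    have : 2 ≤ n := by omega
    exact_mod_cast this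
  have hc : (0 : ℝ) < 1 / (2 * n) := by positivity
  have hc2 : 1 / (2 * (n : ℝ)) * n = 1 / 2 := by field_simp
  have hvar0 : (∑ v, ((G0.degree v : ℝ) - dbar) ^ 2) = t * (n - t) / (n : ℝ) := by
    rw [HG.var_id n m k t htn h2m (fun v => G0.degree v) hsum0 dbar hd]
    have : (∑ v, ((G0.degree v : ℝ) - k) * ((G0.degree v : ℝ) - k - 1)) = 0 := by
      apply Finset.sum_eq_zero
      intro v _
      rcases hdeg0 v with h | h <;> rw [h] <;> push_cast <;> ring
    rw [this, zero_add]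
  have hV : (t * (n - t) / (n : ℝ)) ≤ n / 4 := by
    rw [div_le_iff₀ hnR]
    nlinarith [sq_nonneg ((n : ℝ) - 2 * t)]
  have hγ : (n : ℝ) / 2 ≤ dbar - r := by linarith
  have hρ0 : (spectralRadius ℝ (G0.adjMatrix ℝ)).toReal ≤ dbar + 1 / (2 * n) := by
    refine HG.spec_le_rayleigh _ _ ?_ (dbar + 1 / (2 * n)) (by linarith) ?_
    · intro i j
      rw [SimpleGraph.adjMatrix_apply]
      split_ifs <;> norm_num
    · refine HG.upper n m r hn G0 hm0 (fun v => by rcases hdeg0 v with h | h <;> omega) dbar hd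
        (dbar + 1 / (2 * n)) (by linarith) (by linarith) ?_
      rw [hvar0]
      refine hV.trans ?_
      have e1 : (n : ℝ) * (dbar + 1 / (2 * n) - dbar) = 1 / 2 := by
        rw [← hc2]; ring
      rw [e1]
      linarith
  have hρ : (spectralRadius ℝ (G.adjMatrix ℝ)).toReal ≤ dbar + 1 / (2 * n) :=
    (hmin G0 hc0 hm0).trans hρ0
  have hkey := HG.key n m G hGm (n - 1) (fun v => by omega) dbar hd (dbar + 1 / (2 * n))
    (fun y => by
      refine (HG.rayleigh_le _ _ (G.isSymm_adjMatrix) y).trans ?_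
      apply mul_le_mul_of_nonneg_right hρ
      exact Finset.sum_nonneg (fun i _ => mul_self_nonneg _))
    (by
      have : (0 : ℝ) ≤ ((n - 1 : ℕ) : ℝ) := Nat.cast_nonneg _
      linarith)
  refine hkey.trans ?_
  have e1 : (n : ℝ) * (dbar + 1 / (2 * n) - dbar) = 1 / 2 := by
    rw [← hc2]; ring
  have e2 : ((n - 1 : ℕ) : ℝ) = n - 1 := by
    rw [Nat.cast_sub (by omega)]; simp
  have e3 : 1 / (2 * (n : ℝ)) ≤ 1 := by
    rw [div_le_one (by linarith)]; linarith
  rw [e1, e2]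
  have hdn : dbar ≤ n - 1 := by
    have : (k : ℝ) + 1 ≤ n - 1 := by linarith
    linarith
  linarith

theorem main (n m : ℕ) (h : 3 * (n : ℝ) ^ 2 + 5 * (n * √n) ≤ 8 * m + 4 * n)
    (G : SimpleGraph (Fin n)) [DecidableRel G.Adj] (hG : G.Connected)
    (hGm : G.edgeFinset.card = m)
    (hmin : ∀ (H : SimpleGraph (Fin n)) [DecidableRel H.Adj], H.Connected → H.edgeFinset.card = m →
      (spectralRadius ℝ (G.adjMatrix ℝ)).toReal - 2 * (m : ℝ) / (n : ℝ) ≤
        (spectralRadius ℝ (H.adjMatrix ℝ)).toReal - 2 * (m : ℝ) / (n : ℝ)) :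
    G.maxDegree ≤ G.minDegree + 1 := by
  by_contra hcon
  push Not at hcon
  have hn : 0 < n := by
    obtain ⟨v⟩ := hG.nonempty
    exact Fin.pos v
  have hnR : (0 : ℝ) < n := by exact_mod_cast hn
  have hn1 : (1 : ℝ) ≤ n := by exact_mod_cast hn
  have hsq : 1 ≤ √(n : ℝ) := by
    rw [Real.one_le_sqrt]; exact hn1
  have hsq2 : √(n : ℝ) ^ 2 = n := Real.sq_sqrt hnR.le
  -- average degree
  have hd : (n : ℝ) * (2 * (m : ℝ) / n) = 2 * m := by field_simp
  have h1 : 3 * (n : ℝ) + 5 * √n ≤ 4 * (2 * (m : ℝ) / n) + 4 := by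
    have h2 : (n : ℝ) * (3 * (n : ℝ) + 5 * √n) ≤ n * (4 * (2 * (m : ℝ) / n) + 4) := by
      have h3 : (n : ℝ) * (4 * (2 * (m : ℝ) / n) + 4) = 4 * (n * (2 * (m : ℝ) / n)) + 4 * n := by
        ring
      rw [h3, hd]
      linarith
    exact le_of_mul_le_mul_left h2 hnR
  -- write 2 m = n k + t
  obtain ⟨k, t, htn, h2m⟩ : ∃ k t, t < n ∧ 2 * m = n * k + t :=
    ⟨2 * m / n, 2 * m % n, Nat.mod_lt _ hn, (Nat.div_add_mod (2 * m) n).symm⟩
  have h2mR : (2 : ℝ) * m = (n : ℝ) * k + t := by exact_mod_cast h2m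
  have htnR : (t : ℝ) < n := by exact_mod_cast htn
  have hdk1 : 2 * (m : ℝ) / n < (k : ℝ) + 1 := by
    rw [div_lt_iff₀ hnR, h2mR]; linarith
  have hk2 : n ≤ 2 * k + 1 := by
    have h2 : (n : ℝ) < 2 * k + 2 := by linarith
    have h3 : n < 2 * k + 2 := by exact_mod_cast h2
    omega
  rcases Nat.eq_zero_or_pos t with rfl | ht0
  · have := HG.main0 n m k hn (by omega) hk2 G hGm hmin
    omega
  have hsumdeg : ∑ v, G.degree v = 2 * m := by rw [G.sum_degrees_eq_twice_card_edges, hGm]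
  have hk : k + 2 ≤ n := by
    have h1 : ∑ v, G.degree v ≤ ∑ _v : Fin n, (n - 1) := by
      apply Finset.sum_le_sum
      intro v _
      have := G.degree_lt_card_verts v
      rw [Fintype.card_fin] at this
      omega
    rw [hsumdeg, h2m] at h1
    simp only [Finset.sum_const, Finset.card_univ, Fintype.card_fin, smul_eq_mul] at h1
    have h2 : n * k < n * (n - 1) := by omega
    have h3 := Nat.lt_of_mul_lt_mul_left h2
    omega
  have hmin' : ∀ (H : SimpleGraph (Fin n)) [DecidableRel H.Adj], H.Connected →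
      H.edgeFinset.card = m →
      (spectralRadius ℝ (G.adjMatrix ℝ)).toReal ≤ (spectralRadius ℝ (H.adjMatrix ℝ)).toReal := by
    intro H _ hc hm
    have := hmin H hc hm
    linarith
  have hvar := variance n m k t htn h2m (by linarith) hk hk2 G hGm hmin'
  have hne : Nonempty (Fin n) := ⟨⟨0, hn⟩⟩
  obtain ⟨b, hb⟩ := G.exists_minimal_degree_vertex
  obtain ⟨a, ha⟩ := G.exists_maximal_degree_vertex
  have hab : G.degree b + 2 ≤ G.degree a := by omega
  refine core n m G hGm hmin' a b (fun v => by rw [← hb]; exact G.minDegree_le_degree v)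
    (fun v => by rw [← ha]; exact G.degree_le_maxDegree v) hab ?_
  have hne2 : b ≠ a := by
    rintro rfl
    omega
  have h2 : ((G.degree b : ℝ) - 2 * (m : ℝ) / n) ^ 2 + ((G.degree a : ℝ) - 2 * (m : ℝ) / n) ^ 2 ≤
      (n : ℝ) := by
    refine le_trans ?_ hvar
    rw [← Finset.sum_pair (f := fun v => ((G.degree v : ℝ) - 2 * (m : ℝ) / n) ^ 2) hne2]
    exact Finset.sum_le_sum_of_subset_of_nonneg (Finset.subset_univ _) fun i _ _ => sq_nonneg _
  obtain ⟨α, hα⟩ : ∃ α : ℝ, α = (G.degree a : ℝ) - 2 * (m : ℝ) / n := ⟨_, rfl⟩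
  obtain ⟨β, hβ⟩ : ∃ β : ℝ, β = (G.degree b : ℝ) - 2 * (m : ℝ) / n := ⟨_, rfl⟩
  rw [← hα, ← hβ] at h2
  have h3 : α - 4 * β < 5 * √n := by
    refine lt_of_pow_lt_pow_left₀ 2 (by positivity) ?_
    rw [mul_pow, hsq2]
    nlinarith [sq_nonneg (4 * α + β)]
  linarith

end Pool.Agent.W144.Hong
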